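import Pool.Agent.Helper35.PI.St1

/-! # Project PI (MP_b2fa09_gt), module E3: heat of `log Y` -/

set_option autoImplicit false

namespace Helper60.PI

open Helper35.PI
open scoped BigOperators

variable {n N : ℕ}

/-- `∑ z_ii = Y` -/
lemma E3_trace (A : Fin n → Fin n → EE N) : ∑ i, zz A i i = YY A := by
  simp only [zz, YY]
  rw [← sum_inner, ← real_inner_self_eq_norm_sq]
  rfl

/-- `Z = Y² (1/n + s)` -/
lemma E3_ZZ (hn : 1 ≤ n) (A : Fin n → Fin n → EE N) (hY : 0 < YY A) :
    ZZ A = YY A ^ 2 * (1 / n + Helper35.PI.sq (mA A)) := by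
  have hn0 : (n : ℝ) ≠ 0 := by positivity
  have h1 : ∀ i j : Fin n, mA A i j ^ 2
      = zz A i j ^ 2 / YY A ^ 2 - (if i = j then 2 / (n * YY A) * zz A i j else 0)
        + (if i = j then 1 / (n : ℝ) ^ 2 else 0) := by
    intro i j
    simp only [mA, dl]
    split_ifs
    · field_simp
      ring
    · field_simp
      ring
  have h2 : Helper35.PI.sq (mA A) = ZZ A / YY A ^ 2 - 2 / (n * YY A) * YY A + n * (1 / (n : ℝ) ^ 2) := by
    simp only [Helper35.PI.sq, h1, Finset.sum_add_distrib, Finset.sum_sub_distrib, Finset.sum_ite_eq,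
      Finset.mem_univ, if_true]
    rw [← Finset.mul_sum, E3_trace, Finset.sum_const, Finset.card_univ, Fintype.card_fin,
      nsmul_eq_mul, ZZ, Finset.sum_div]
    simp only [Finset.sum_div]
  rw [h2]
  field_simp
  ring

/-- Module E3. -/
theorem hE3 : StE3 := by
  intro n N hn A T hA hT hY
  have hYH : YY A = ‖Hv A‖ ^ 2 := rfl
  have hH : ‖Hv A‖ ≠ 0 := by
    intro h
    rw [hYH, h] at hY
    norm_num at hY
  have hsym : ∀ k i : Fin n, T k i i = T i i k := by
    intro k i
    rw [hT.1 k i i, hT.2 i k i]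
  have hs1 : ∀ k : Fin n, ∑ i, T k i i = et T k := fun k =>
    Finset.sum_congr rfl fun i _ => hsym k i
  have hy : ∀ k, yv (tA A T) k = inner ℝ (et T k) (Hv A) / YY A := by
    intro k
    simp only [yv, tA]
    rw [← Finset.sum_div, ← sum_inner, hs1]
  have hw : ∀ k, wv (thA A T) k
      = (1 / ‖Hv A‖) • (et T k - (inner ℝ (et T k) (Hv A) / YY A) • Hv A) := by
    intro k
    simp only [wv, thA]
    rw [← Finset.smul_sum, Finset.sum_sub_distrib, ← Finset.sum_smul, ← Finset.sum_div,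
      ← sum_inner, hs1]
  have hwn : ∀ k, ‖wv (thA A T) k‖ ^ 2
      = ‖et T k‖ ^ 2 / YY A - (yv (tA A T) k) ^ 2 := by
    intro k
    rw [hw, hy, norm_smul, mul_pow, norm_sub_sq_real, norm_smul, inner_smul_right, mul_pow]
    simp only [Real.norm_eq_abs, sq_abs, one_div]
    rw [hYH]
    field_simp
    ring
  have hgY : ∀ k, gY A T k = 2 * (YY A * yv (tA A T) k) := by
    intro k
    rw [hy, gY, real_inner_comm]
    field_simp
  have hZ := E3_ZZ hn A hY
  have h3 : ∑ k, gY A T k ^ 2 = 4 * YY A ^ 2 * yq (tA A T) := by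
    rw [yq, Finset.mul_sum]
    refine Finset.sum_congr rfl fun k _ => ?_
    rw [hgY]
    ring
  have h4 : wq (thA A T) = (∑ k, ‖et T k‖ ^ 2) / YY A - yq (tA A T) := by
    rw [wq, yq, Finset.sum_div, ← Finset.sum_sub_distrib]
    exact Finset.sum_congr rfl fun k _ => hwn k
  rw [hlY, Helper35.PI.hY, hZ, h3, h4]
  field_simp
  ring

end Helper60.PI
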