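import Mathlib
import Pool.Agent.Helper35.PI.St2

/-!
Module JB of project PI: jets of products and of inner products.
-/

namespace Helper60.PI

open Helper35.PI
open scoped ContDiff Manifold Topology ENNReal BigOperators
open MeasureTheory Set Filter

section

variable {n : ℕ} {E F G : Type} [NormedAddCommGroup E] [NormedSpace ℝ E]
  [NormedAddCommGroup F] [NormedSpace ℝ F] [NormedAddCommGroup G] [NormedSpace ℝ G]

theorem jb_fd (B : E →L[ℝ] F →L[ℝ] G) (φ : EE n × ℝ → E) (ψ : EE n × ℝ → F)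
    (z v : EE n × ℝ) (h1 : DifferentiableAt ℝ φ z) (h2 : DifferentiableAt ℝ ψ z) :
    fderiv ℝ (fun z => B (φ z) (ψ z)) z v
      = B (fderiv ℝ φ z v) (ψ z) + B (φ z) (fderiv ℝ ψ z v) := by
  rw [(B.hasFDerivAt_of_bilinear h1.hasFDerivAt h2.hasFDerivAt).fderiv]
  simp [add_comm]

theorem jb_jg (B : E →L[ℝ] F →L[ℝ] G) (φ : EE n × ℝ → E) (ψ : EE n × ℝ → F)
    (z : EE n × ℝ) (h1 : DifferentiableAt ℝ φ z) (h2 : DifferentiableAt ℝ ψ z) (k : Fin n) :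
    jg (fun z => B (φ z) (ψ z)) z k = B (jg φ z k) (ψ z) + B (φ z) (jg ψ z k) :=
  jb_fd B φ ψ z (ee k, 0) h1 h2

theorem jb_jt (B : E →L[ℝ] F →L[ℝ] G) (φ : EE n × ℝ → E) (ψ : EE n × ℝ → F)
    (z : EE n × ℝ) (h1 : DifferentiableAt ℝ φ z) (h2 : DifferentiableAt ℝ ψ z) :
    jt (fun z => B (φ z) (ψ z)) z = B (jt φ z) (ψ z) + B (φ z) (jt ψ z) :=
  jb_fd B φ ψ z (0, 1) h1 h2

theorem jb_diff (φ : EE n × ℝ → E) (z : EE n × ℝ) (h : ContDiffAt ℝ 2 φ z) (k : Fin n) :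
    DifferentiableAt ℝ (fun z' => jg φ z' k) z := by
  have h1 : ContDiffAt ℝ 1 (fderiv ℝ φ) z := h.fderiv_right (m := 1) (by norm_num)
  have h2 : DifferentiableAt ℝ (fderiv ℝ φ) z := h1.differentiableAt (by norm_num)
  exact h2.clm_apply (differentiableAt_const _)

theorem jb_ev (φ : EE n × ℝ → E) (z : EE n × ℝ) (h : ContDiffAt ℝ 2 φ z) :
    ∀ᶠ z' in 𝓝 z, DifferentiableAt ℝ φ z' := by
  have h1 := h.eventually (by norm_num)
  exact h1.mono fun z' hz' => hz'.differentiableAt (by norm_num)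

theorem jb_jgg (B : E →L[ℝ] F →L[ℝ] G) (φ : EE n × ℝ → E) (ψ : EE n × ℝ → F)
    (z : EE n × ℝ) (h1 : ContDiffAt ℝ 2 φ z) (h2 : ContDiffAt ℝ 2 ψ z) (i : Fin n) :
    jgg (fun z => B (φ z) (ψ z)) z i i
      = B (jgg φ z i i) (ψ z) + B (φ z) (jgg ψ z i i)
        + (2 : ℝ) • B (jg φ z i) (jg ψ z i) := by
  have hd1 : DifferentiableAt ℝ φ z := h1.differentiableAt (by norm_num)
  have hd2 : DifferentiableAt ℝ ψ z := h2.differentiableAt (by norm_num)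
  have hj1 := jb_diff φ z h1 i
  have hj2 := jb_diff ψ z h2 i
  have e : (fun z' => jg (fun z => B (φ z) (ψ z)) z' i) =ᶠ[𝓝 z]
      (fun z' => B (jg φ z' i) (ψ z') + B (φ z') (jg ψ z' i)) := by
    filter_upwards [jb_ev φ z h1, jb_ev ψ z h2] with z' a b
    exact jb_jg B φ ψ z' a b i
  have e1 : jgg (fun z => B (φ z) (ψ z)) z i i
      = fderiv ℝ (fun z' => B (jg φ z' i) (ψ z') + B (φ z') (jg ψ z' i)) z (ee i, 0) := by
    unfold jgg
    rw [jg, e.fderiv_eq]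
  have d1 : DifferentiableAt ℝ (fun z' => B (jg φ z' i) (ψ z')) z :=
    (B.hasFDerivAt_of_bilinear hj1.hasFDerivAt hd2.hasFDerivAt).differentiableAt
  have d2 : DifferentiableAt ℝ (fun z' => B (φ z') (jg ψ z' i)) z :=
    (B.hasFDerivAt_of_bilinear hd1.hasFDerivAt hj2.hasFDerivAt).differentiableAt
  have e2 : fderiv ℝ (fun z' => B (jg φ z' i) (ψ z') + B (φ z') (jg ψ z' i)) z
      = fderiv ℝ (fun z' => B (jg φ z' i) (ψ z')) z
        + fderiv ℝ (fun z' => B (φ z') (jg ψ z' i)) z := fderiv_fun_add d1 d2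
  rw [e1, e2, add_apply, jb_fd B (fun z' => jg φ z' i) ψ z _ hj1 hd2,
    jb_fd B φ (fun z' => jg ψ z' i) z _ hd1 hj2]
  have f1 : fderiv ℝ (fun z' => jg φ z' i) z (ee i, 0) = jgg φ z i i := rfl
  have f2 : fderiv ℝ (fun z' => jg ψ z' i) z (ee i, 0) = jgg ψ z i i := rfl
  have f3 : fderiv ℝ φ z (ee i, 0) = jg φ z i := rfl
  have f4 : fderiv ℝ ψ z (ee i, 0) = jg ψ z i := rfl
  rw [f1, f2, f3, f4, two_smul]
  abel

theorem jb_jh (B : E →L[ℝ] F →L[ℝ] G) (φ : EE n × ℝ → E) (ψ : EE n × ℝ → F)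
    (z : EE n × ℝ) (h1 : ContDiffAt ℝ 2 φ z) (h2 : ContDiffAt ℝ 2 ψ z) :
    jh (fun z => B (φ z) (ψ z)) z
      = B (jh φ z) (ψ z) + B (φ z) (jh ψ z)
        - (2 : ℝ) • ∑ k, B (jg φ z k) (jg ψ z k) := by
  have hd1 : DifferentiableAt ℝ φ z := h1.differentiableAt (by norm_num)
  have hd2 : DifferentiableAt ℝ ψ z := h2.differentiableAt (by norm_num)
  have s : ∑ k, jgg (fun z => B (φ z) (ψ z)) z k k
      = (∑ k, B (jgg φ z k k) (ψ z)) + (∑ k, B (φ z) (jgg ψ z k k))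
        + (2 : ℝ) • ∑ k, B (jg φ z k) (jg ψ z k) := by
    rw [Finset.smul_sum, ← Finset.sum_add_distrib, ← Finset.sum_add_distrib]
    exact Finset.sum_congr rfl fun k _ => jb_jgg B φ ψ z h1 h2 k
  unfold jh
  rw [jb_jt B φ ψ z hd1 hd2, s]
  simp only [map_sub, map_sum, sub_apply, ContinuousLinearMap.sum_apply]
  abel

end

theorem hJB (_hJA : StJA) : StJB := by
  intro n N z
  refine ⟨fun φ ψ h1 h2 => ?_, fun φ ψ h1 h2 => ?_⟩
  · have hd1 : DifferentiableAt ℝ φ z := h1.differentiableAt (by norm_num)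
    have hd2 : DifferentiableAt ℝ ψ z := h2.differentiableAt (by norm_num)
    refine ⟨fun k => ?_, ?_⟩
    · exact jb_jg (ContinuousLinearMap.mul ℝ ℝ) φ ψ z hd1 hd2 k
    · have := jb_jh (ContinuousLinearMap.mul ℝ ℝ) φ ψ z h1 h2
      simpa only [ContinuousLinearMap.mul_apply', smul_eq_mul] using this
  · have hd1 : DifferentiableAt ℝ φ z := h1.differentiableAt (by norm_num)
    have hd2 : DifferentiableAt ℝ ψ z := h2.differentiableAt (by norm_num)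
    refine ⟨fun k => ?_, ?_⟩
    · exact jb_jg (innerSL ℝ) φ ψ z hd1 hd2 k
    · exact jb_jh (innerSL ℝ) φ ψ z h1 h2

end Helper60.PI
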